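import Pool.Agent.Y786.FS.Quot

set_option autoImplicit false

/-!
# L-functions over the fixed fields of free subgroups: products, quotients and zeros
-/

namespace Pool.Agent.Y786.FS

open Pool.Agent.H302R2 Pool.Agent.H302R3 Pool.Agent.H541R3.ART Pool.Agent.W446.AS Pool.Agent.Y786.FR
  Equiv Filter Topology

/-- the canonical induced family -/
lemma exists_inducedT {Γ G : Type} [Group Γ] [Finite Γ] [Group G] [Finite G] {s₀ : ℂ} (ι : G →* Γ)
    (A : TwistData Γ s₀) : ∃ M : (G → ℂ) → ℂ → ℂ, InducedT ι A M := by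
  classical
  choose! v hv using fun (χ : G → ℂ) (hχ : χ ∈ Irr G) (ψ : Γ → ℂ)
    (hψ : ψ ∈ Irr Γ) => exists_mult_hom hψ ι hχ
  refine ⟨fun χ s => ∏ᶠ ψ ∈ Irr Γ, A.L ψ s ^ v χ ψ, ?_⟩
  intro χ hχ v' hv'
  have hG : (Nat.card G : ℂ) ≠ 0 := by exact_mod_cast Nat.card_pos.ne'
  have he : ∀ ψ ∈ Irr Γ, v' ψ = v χ ψ := by
    intro ψ hψ
    have h1 := hv' ψ hψ
    rw [hv χ hχ ψ hψ] at h1
    have h2 := mul_right_cancel₀ hG h1
    exact_mod_cast h2.symm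
  refine Filter.Eventually.of_forall fun s => ?_
  exact finprod_mem_congr rfl fun ψ hψ => by rw [he ψ hψ]

/-- the trivial character gives the L-function of the fixed field -/
lemma InducedT.one {Γ : Type} [Group Γ] [Finite Γ] {m : ℕ} {s₀ : ℂ} {A : TwistData Γ s₀}
    (j : Perm (Fin m) →* Γ) (hj : Function.Injective j) (H : Subgroup (Perm (Fin m)))
    {M : (H → ℂ) → ℂ → ℂ} (hM : InducedT (j.comp H.subtype) A M) :
    A.Lin (H.map j) 1 =ᶠ[𝓝[≠] s₀] M (fun _ => 1) := by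
  classical
  choose! v hv using fun (ψ : Γ → ℂ) (hψ : ψ ∈ Irr Γ) =>
    exists_mult_hom hψ (j.comp H.subtype) (one_irr (G := H))
  refine (A.induce (H.map j) 1 v ?_).trans (hM _ one_irr v hv).symm
  intro ψ hψ
  have h1 := hv ψ hψ
  have h3 : Nat.card (H.map j) = Nat.card H :=
    (Nat.card_congr (H.equivMapOfInjective j hj).toEquiv).symm
  rw [h3, ← h1]
  have h5 : ∀ h : H.map j, ψ (h : Γ) * ((((1 : H.map j →* ℂˣ) h)⁻¹ : ℂˣ) : ℂ) = ψ (h : Γ) := by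
    intro h
    simp
  rw [finsum_congr h5]
  have h6 : ∀ g : H, ψ ((j.comp H.subtype) g) * (fun _ => (1 : ℂ)) g⁻¹ = ψ (j (g : Perm (Fin m))) := by
    intro g
    simp
  rw [finsum_congr h6]
  exact (finsum_comp_equiv (H.equivMapOfInjective j hj).toEquiv
    (f := fun y : H.map j => ψ (y : Γ))).symm

/-- **Main theorem on the fields of free subgroups.** -/
theorem modular_main (N : ℕ) (ε : ℝ) (hε : 0 < ε) : ∃ m₀ : ℕ, 0 < m₀ ∧
    (∀ (G : Type) [Group G] [Finite G], Nat.card G ≤ N →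
      ∃ ι : G →* Perm (Fin m₀), Function.Injective ι ∧ FreeSub ι.range) ∧
    ∀ m : ℕ, 0 < m → m₀ ∣ m → ∀ (Γ : Type) [Group Γ] [Finite Γ] (j : Perm (Fin m) →* Γ),
      Function.Injective j →
      (∀ H : Subgroup (Perm (Fin m)), FreeSub H → Nat.card H ≤ N →
        ∃ (k l : ℕ) (U : Fin l → Subgroup Γ) (lam : ∀ i, U i →* ℂˣ), 0 < k ∧
          (∀ i, Group.IsSolvable (U i)) ∧
          (∀ σ, (k : ℂ) * ind (j.comp H.subtype) (fun _ => 1) σ =
            ∑ i, ind (U i).subtype (fun h => ((lam i h : ℂˣ) : ℂ)) σ) ∧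
          ∀ (s₀ : ℂ) (A : TwistData Γ s₀), (fun s => A.Lin (H.map j) 1 s ^ k) =ᶠ[𝓝[≠] s₀]
            fun s => ∏ i, A.Lin (U i) (lam i) s) ∧
      ∀ (s₀ : ℂ) (A : TwistData Γ s₀), ∃ o : Subgroup (Perm (Fin m)) → ℤ,
        (∀ H, meromorphicOrderAt (A.Lin (H.map j) 1) s₀ = o H) ∧
        (∀ H, FreeSub H → Nat.card H ≤ N → 0 ≤ o H ∧ (0 < o ⊥ → 0 < o H)) ∧
        ∀ H H', FreeSub H → FreeSub H' → Nat.card H < Nat.card H' → Nat.card H' ≤ N →
          o H' ≤ o H ∧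
          ∀ U U', FreeSub U → FreeSub U' → Nat.card U < Nat.card U' → Nat.card U' ≤ N →
            ((o H : ℝ) - o H') * (1 / (Nat.card U : ℝ) - 1 / (Nat.card U' : ℝ)) ≤
              (1 + ε) * (((o U : ℝ) - o U') * (1 / (Nat.card H : ℝ) - 1 / (Nat.card H' : ℝ))) := by
  classical
  obtain ⟨m₁, hm₁, hemb, h1⟩ := quot_main N ε hε
  obtain ⟨m₂, hm₂, -, h2⟩ := smain N ε hε
  refine ⟨m₁ * m₂ * N.factorial, Nat.mul_pos (Nat.mul_pos hm₁ hm₂) N.factorial_pos, ?_, ?_⟩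
  · intro G _ _ hG
    obtain ⟨e, he⟩ := exists_freeHom G (m := m₁ * m₂ * N.factorial)
      ((Nat.dvd_factorial Nat.card_pos hG).trans (Nat.dvd_mul_left _ _))
    refine ⟨e, he.inj (Nat.mul_pos (Nat.mul_pos hm₁ hm₂) N.factorial_pos), ?_⟩
    rintro σ ⟨g, rfl⟩ hσ x
    exact he g (fun h => hσ (by rw [h, map_one])) x
  intro m hmpos hdvd Γ _ _ j hj
  have hd1 : m₁ ∣ m := ((Nat.dvd_mul_right _ _).trans (Nat.dvd_mul_right _ _)).trans hdvd
  have hd2 : m₂ ∣ m := ((Nat.dvd_mul_left _ _).trans (Nat.dvd_mul_right _ _)).trans hdvd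
  refine ⟨?_, fun s₀ A => h1 m hmpos hd1 Γ j hj s₀ A⟩
  intro H hH hN
  have hfree : ∀ g : H, g ≠ 1 → ∀ x, H.subtype g x ≠ x := fun g hg x => hH.hom g hg x
  obtain ⟨h3, -, -⟩ := h2 m hmpos hd2 Γ j H hN H.subtype hfree
  obtain ⟨k, l, U, lam, hk, hsol, hid, hL⟩ := h3 (fun _ => 1) one_irr
  refine ⟨k, l, U, lam, hk, hsol, hid, ?_⟩
  intro s₀ A
  obtain ⟨M, hM⟩ := exists_inducedT (j.comp H.subtype) A
  filter_upwards [hL s₀ A M hM, InducedT.one j hj H hM] with s hs1 hs2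
  rw [hs2, hs1]

end Pool.Agent.Y786.FS
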