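import Pool.Agent.Y786.FS.Pair
import Pool.Agent.Y786.FR.Cone

set_option autoImplicit false

/-!
# Duality: solvable subgroups
-/

namespace Pool.Agent.Y786.FS

open Pool.Agent.H302R2 Pool.Agent.H302R3 Pool.Agent.H541R3.ART Pool.Agent.W446.AS Pool.Agent.Y786.FR

theorem theta_isSol {G : Type} [Group G] [Finite G] (n : (G → ℂ) → ℤ)
    (hn : ∀ (H : Subgroup G), Group.IsSolvable H → ∀ (ψ : H →* ℂˣ) (m : (G → ℂ) → ℕ),
      (∀ χ ∈ Irr G, ∑ᶠ h : H, χ h * (((ψ h)⁻¹ : ℂˣ) : ℂ) = (m χ : ℂ) * (Nat.card H : ℂ)) →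
      0 ≤ ∑ χ ∈ irrF G, (m χ : ℤ) * n χ) : IsSolHeilbronn (theta n : G → ℂ) where
  conj g h := by
    unfold theta
    exact Finset.sum_congr rfl fun χ hχ => by rw [Irr.conj (mem_irrF.mp hχ)]
  mult H hH ψ := by
    classical
    choose! m hm using fun χ (hχ : χ ∈ Irr G) => exists_mult hχ H ψ
    obtain ⟨k, hk⟩ := Int.eq_ofNat_of_zero_le (hn H hH ψ m hm)
    refine ⟨k, ?_⟩
    rw [theta_mult n H ψ m hm, hk]
    push_cast
    ring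

/-- **Duality.** A vector of multiplicities which is nonnegative on all Heilbronn functions is a
positive rational combination of the vectors of the monomial characters. -/
theorem cone_of_sol {Γ : Type} [Group Γ] [Finite Γ] (v : (Γ → ℂ) → ℕ)
    (h : ∀ n : (Γ → ℂ) → ℤ, IsSolHeilbronn (theta n : Γ → ℂ) → 0 ≤ ∑ ψ ∈ irrF Γ, (v ψ : ℤ) * n ψ) :
    ∃ (k l : ℕ) (H : Fin l → Subgroup Γ) (lam : ∀ i, H i →* ℂˣ) (w : Fin l → (Γ → ℂ) → ℕ), 0 < k ∧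
      (∀ i, Group.IsSolvable (H i)) ∧
      (∀ i, ∀ ψ ∈ Irr Γ, ∑ᶠ x : H i, ψ x * (((lam i x)⁻¹ : ℂˣ) : ℂ) =
        (w i ψ : ℂ) * (Nat.card (H i) : ℂ)) ∧
      ∀ ψ ∈ Irr Γ, k * v ψ = ∑ i, w i ψ := by
  classical
  let I := Σ H : {H : Subgroup Γ // Group.IsSolvable H}, (H.1 →* ℂˣ)
  have : Finite I := inferInstance
  have : Fintype I := Fintype.ofFinite I
  let q := Fintype.card I
  let e : I ≃ Fin q := Fintype.equivFin I
  -- multiplicities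
  choose! w hw using fun (i : I) (ψ : Γ → ℂ) (hψ : ψ ∈ Irr Γ) => exists_mult hψ i.1.1 i.2
  let U := {ψ // ψ ∈ irrF Γ} → ℚ
  let ℓ : Fin q → (U →ₗ[ℚ] ℚ) := fun j =>
    -(∑ ψ : {ψ // ψ ∈ irrF Γ}, (w (e.symm j) ψ : ℚ) • LinearMap.proj ψ)
  let f : U →ₗ[ℚ] ℚ := -(∑ ψ : {ψ // ψ ∈ irrF Γ}, (v ψ : ℚ) • LinearMap.proj ψ)
  have hℓ : ∀ j x, ℓ j x = -∑ ψ : {ψ // ψ ∈ irrF Γ}, (w (e.symm j) ψ : ℚ) * x ψ := by
    intro j x
    simp only [ℓ, LinearMap.neg_apply, LinearMap.sum_apply, LinearMap.smul_apply, smul_eq_mul]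
    rfl
  have hf : ∀ x, f x = -∑ ψ : {ψ // ψ ∈ irrF Γ}, (v ψ : ℚ) * x ψ := by
    intro x
    simp only [f, LinearMap.neg_apply, LinearMap.sum_apply, LinearMap.smul_apply, smul_eq_mul]
    rfl
  obtain ⟨c, hc0, hc⟩ := Pool.Agent.TH216.MF.farkas_lin q ℓ f (by
    intro x hx
    obtain ⟨d, y, hd, hy⟩ := clearZ x
    let n : (Γ → ℂ) → ℤ := fun ψ => if hψ : ψ ∈ irrF Γ then y ⟨ψ, hψ⟩ else 0
    have hn : ∀ ψ : {ψ // ψ ∈ irrF Γ}, n ψ = y ψ := fun ψ => dif_pos ψ.2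
    have hd' : (0 : ℚ) < d := by exact_mod_cast hd
    have hH : IsSolHeilbronn (theta n : Γ → ℂ) := by
      refine theta_isSol n fun H hsol ψ m hm => ?_
      have h1 := hx (e ⟨⟨H, hsol⟩, ψ⟩)
      rw [hℓ, Equiv.symm_apply_apply] at h1
      have h2 : ∀ χ ∈ irrF Γ, m χ = w ⟨⟨H, hsol⟩, ψ⟩ χ := by
        intro χ hχ
        have h3 := hm χ (mem_irrF.mp hχ)
        have h4 := hw ⟨⟨H, hsol⟩, ψ⟩ χ (mem_irrF.mp hχ)
        rw [h3] at h4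
        have hH : (Nat.card H : ℂ) ≠ 0 := by exact_mod_cast Nat.card_pos.ne'
        exact_mod_cast mul_right_cancel₀ hH h4
      have h5 : ∑ χ ∈ irrF Γ, (m χ : ℤ) * n χ =
          ∑ χ : {ψ // ψ ∈ irrF Γ}, (w ⟨⟨H, hsol⟩, ψ⟩ χ : ℤ) * y χ := by
        rw [← Finset.sum_coe_sort]
        exact Finset.sum_congr rfl fun χ _ => by rw [h2 χ χ.2, hn]
      rw [h5]
      have h6 : (0 : ℚ) ≤ ((∑ χ : {ψ // ψ ∈ irrF Γ}, (w ⟨⟨H, hsol⟩, ψ⟩ χ : ℤ) * y χ : ℤ) : ℚ) := by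
        push_cast
        have h7 : ∑ χ : {ψ // ψ ∈ irrF Γ}, (w ⟨⟨H, hsol⟩, ψ⟩ χ : ℚ) * (y χ : ℚ) =
            d * ∑ χ : {ψ // ψ ∈ irrF Γ}, (w ⟨⟨H, hsol⟩, ψ⟩ χ : ℚ) * x χ := by
          rw [Finset.mul_sum]
          exact Finset.sum_congr rfl fun χ _ => by rw [hy]; ring
        rw [h7]
        exact mul_nonneg hd'.le (by linarith)
      exact_mod_cast h6
    have h1 := h n hH
    rw [hf]
    have h2 : ∑ ψ ∈ irrF Γ, (v ψ : ℤ) * n ψ = ∑ χ : {ψ // ψ ∈ irrF Γ}, (v χ : ℤ) * y χ := by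
      rw [← Finset.sum_coe_sort]
      exact Finset.sum_congr rfl fun χ _ => by rw [hn]
    rw [h2] at h1
    have h3 : (0 : ℚ) ≤ ((∑ χ : {ψ // ψ ∈ irrF Γ}, (v χ : ℤ) * y χ : ℤ) : ℚ) := by exact_mod_cast h1
    push_cast at h3
    have h7 : ∑ χ : {ψ // ψ ∈ irrF Γ}, (v χ : ℚ) * (y χ : ℚ) =
        d * ∑ χ : {ψ // ψ ∈ irrF Γ}, (v χ : ℚ) * x χ := by
      rw [Finset.mul_sum]
      exact Finset.sum_congr rfl fun χ _ => by rw [hy]; ring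
    rw [h7] at h3
    have := nonneg_of_mul_nonneg_right h3 hd'
    linarith)
  obtain ⟨k, C, hk, hC⟩ := clearN c hc0
  -- the family
  let J := Σ j : Fin q, Fin (C j)
  let g : J ≃ Fin (Fintype.card J) := Fintype.equivFin J
  have key : ∀ ψ ∈ irrF Γ, (v ψ : ℚ) = ∑ j, c j * (w (e.symm j) ψ : ℚ) := by
    intro ψ hψ
    have h1 := hc (Pi.single ⟨ψ, hψ⟩ 1)
    rw [hf] at h1
    simp only [hℓ] at h1
    have h2 : ∀ u : {ψ // ψ ∈ irrF Γ} → ℚ, ∑ χ : {ψ // ψ ∈ irrF Γ}, u χ *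
        (Pi.single (⟨ψ, hψ⟩ : {ψ // ψ ∈ irrF Γ}) (1 : ℚ) : {ψ // ψ ∈ irrF Γ} → ℚ) χ = u ⟨ψ, hψ⟩ := by
      intro u
      rw [Finset.sum_eq_single (⟨ψ, hψ⟩ : {ψ // ψ ∈ irrF Γ})]
      · simp
      · intro b _ hb
        rw [Pi.single_eq_of_ne hb, mul_zero]
      · intro hh
        exact absurd (Finset.mem_univ _) hh
    rw [h2 (fun χ => (v χ : ℚ))] at h1
    have h3 : ∀ j, c j * -∑ χ : {ψ // ψ ∈ irrF Γ}, (w (e.symm j) χ : ℚ) *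
        (Pi.single (⟨ψ, hψ⟩ : {ψ // ψ ∈ irrF Γ}) (1 : ℚ) : {ψ // ψ ∈ irrF Γ} → ℚ) χ =
        -(c j * (w (e.symm j) ψ : ℚ)) := by
      intro j
      rw [h2 (fun χ => (w (e.symm j) χ : ℚ))]
      ring
    rw [Finset.sum_congr rfl (fun j _ => h3 j), Finset.sum_neg_distrib] at h1
    linarith
  refine ⟨k, Fintype.card J, fun i => (e.symm (g.symm i).1).1.1, fun i => (e.symm (g.symm i).1).2,
    fun i => w (e.symm (g.symm i).1), hk, fun i => (e.symm (g.symm i).1).1.2,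
    fun i ψ hψ => hw _ ψ hψ, fun ψ hψ => ?_⟩
  have h1 := key ψ (mem_irrF.mpr hψ)
  rw [Equiv.sum_comp g.symm (fun x : J => w (e.symm x.1) ψ), Fintype.sum_sigma]
  simp only [Finset.sum_const, Finset.card_univ, Fintype.card_fin, smul_eq_mul]
  have h2 : ((k * v ψ : ℕ) : ℚ) = ((∑ j, C j * w (e.symm j) ψ : ℕ) : ℚ) := by
    push_cast
    rw [h1, Finset.mul_sum]
    exact Finset.sum_congr rfl fun j _ => by rw [hC]; ring
  exact_mod_cast h2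

end Pool.Agent.Y786.FS
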