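import Pool.Agent.Y786.FS.Cone
import Pool.Agent.Y786.FR.Main

set_option autoImplicit false

/-!
# L-functions with good properties over the fixed fields of the solvable subgroups
-/

namespace Pool.Agent.Y786.FS

open Pool.Agent.H302R2 Pool.Agent.H302R3 Pool.Agent.H541R3.ART Pool.Agent.W446.AS Pool.Agent.Y786.FR
  Equiv Filter Topology

/-- Functions with the formal properties of the L-functions `L ψ = L(s, ρ ⊗ ψ)` of the twists of a
fixed object `ρ` over `K₀` (for instance an elliptic curve) by the irreducible characters `ψ` of the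
Galois group `Γ` of `F/K₀`, near the point `s₀`; `Lin H l` is the L-function of the restriction of
`ρ` to the fixed field of `H`, twisted by the linear character `l` of `H`. -/
structure TwistData (Γ : Type) [Group Γ] (s₀ : ℂ) where
  L : (Γ → ℂ) → ℂ → ℂ
  Lin : (H : Subgroup Γ) → (H →* ℂˣ) → ℂ → ℂ
  /-- meromorphic and not identically zero near `s₀` -/
  mero : ∀ ψ ∈ Irr Γ, MeromorphicAt (L ψ) s₀ ∧ meromorphicOrderAt (L ψ) s₀ ≠ ⊤
  /-- for SOLVABLE subgroups `H` the function `Lin H l` has no pole at `s₀` -/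
  holo : ∀ (H : Subgroup Γ), Group.IsSolvable H → ∀ l : H →* ℂˣ,
    0 ≤ meromorphicOrderAt (Lin H l) s₀
  /-- induction: `Lin H l` is the product of the `L ψ ^ ⟨ψ|_H, l⟩` -/
  induce : ∀ (H : Subgroup Γ) (l : H →* ℂˣ) (m : (Γ → ℂ) → ℕ),
    (∀ ψ ∈ Irr Γ, ∑ᶠ h : H, ψ h * (((l h)⁻¹ : ℂˣ) : ℂ) = (m ψ : ℂ) * (Nat.card H : ℂ)) →
    Lin H l =ᶠ[𝓝[≠] s₀] fun s => ∏ᶠ ψ ∈ Irr Γ, L ψ s ^ m ψ

/-- `M χ` is, for every irreducible character `χ` of `G`, the product of the functions `L ψ` to the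
power `⟨ψ ∘ ι, χ⟩` near `s₀`. -/
def InducedT {Γ G : Type} [Group Γ] [Group G] {s₀ : ℂ} (ι : G →* Γ) (A : TwistData Γ s₀)
    (M : (G → ℂ) → ℂ → ℂ) : Prop :=
  ∀ χ ∈ Irr G, ∀ v : (Γ → ℂ) → ℕ,
    (∀ ψ ∈ Irr Γ, ∑ᶠ g : G, ψ (ι g) * χ g⁻¹ = (v ψ : ℂ) * (Nat.card G : ℂ)) →
    M χ =ᶠ[𝓝[≠] s₀] fun s => ∏ᶠ ψ ∈ Irr Γ, A.L ψ s ^ v ψ

namespace TwistData

variable {Γ : Type} [Group Γ] [Finite Γ] {s₀ : ℂ} (A : TwistData Γ s₀)

/-- the orders at `s₀` -/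
noncomputable def ord (ψ : Γ → ℂ) : ℤ := (meromorphicOrderAt (A.L ψ) s₀).untop₀

omit [Finite Γ] in
lemma coe_ord {ψ : Γ → ℂ} (hψ : ψ ∈ Irr Γ) :
    (A.ord ψ : WithTop ℤ) = meromorphicOrderAt (A.L ψ) s₀ :=
  WithTop.coe_untop₀_of_ne_top (A.mero ψ hψ).2

/-- orders of products -/
lemma order_prod {f : ℂ → ℂ} (v : (Γ → ℂ) → ℕ)
    (hM : f =ᶠ[𝓝[≠] s₀] fun s => ∏ᶠ ψ ∈ Irr Γ, A.L ψ s ^ v ψ) :
    meromorphicOrderAt f s₀ = ((∑ ψ ∈ irrF Γ, (v ψ : ℤ) * A.ord ψ : ℤ) : WithTop ℤ) := by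
  classical
  rw [meromorphicOrderAt_congr hM]
  have h1 : (fun s => ∏ᶠ ψ ∈ Irr Γ, A.L ψ s ^ v ψ)
      = fun s => ∏ χ ∈ irrF Γ, (A.L χ ^ v χ) s := by
    funext s
    rw [finprod_mem_eq_finite_toFinset_prod _ (irr_finite (G := Γ))]
    rfl
  rw [h1, meromorphicOrderAt_fun_prod (fun χ hχ => ((A.mero χ (mem_irrF.mp hχ)).1).pow _)]
  rw [WithTop.coe_sum]
  refine Finset.sum_congr rfl fun χ hχ => ?_
  rw [meromorphicOrderAt_pow ((A.mero χ (mem_irrF.mp hχ)).1), ← A.coe_ord (mem_irrF.mp hχ)]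
  push_cast
  rfl

theorem isSol : IsSolHeilbronn (theta A.ord : Γ → ℂ) := by
  refine theta_isSol _ fun H hH ψ m hm => ?_
  have h := A.holo H hH ψ
  rw [A.order_prod m (A.induce H ψ m hm)] at h
  exact_mod_cast h

/-- the value at `1` is the order of the L-function over the top field -/
lemma theta_one {r : ℕ} (hr : meromorphicOrderAt (A.Lin ⊥ 1) s₀ = (r : WithTop ℤ)) :
    (theta A.ord : Γ → ℂ) 1 = r := by
  classical
  choose! m hm using fun χ (hχ : χ ∈ Irr Γ) => exists_mult hχ (⊥ : Subgroup Γ) 1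
  have h1 := A.order_prod m (A.induce ⊥ 1 m hm)
  have h2 := theta_mult A.ord ⊥ 1 m hm
  rw [hr] at h1
  have h3 : (∑ χ ∈ irrF Γ, (m χ : ℤ) * A.ord χ : ℤ) = (r : ℤ) := by
    have : ((r : ℤ) : WithTop ℤ) = ((∑ χ ∈ irrF Γ, (m χ : ℤ) * A.ord χ : ℤ) : WithTop ℤ) := by
      rw [← h1]; rfl
    exact (WithTop.coe_injective this).symm
  rw [h3] at h2
  have : Fintype (⊥ : Subgroup Γ) := Fintype.ofFinite _
  rw [finsum_eq_sum_of_fintype, Fintype.sum_eq_single (1 : (⊥ : Subgroup Γ))] at h2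
  · simpa using h2
  · intro x hx
    exact absurd (Subsingleton.elim x 1) hx

/-- the identity of L-functions -/
lemma L_identity {f : ℂ → ℂ} (v : (Γ → ℂ) → ℕ)
    (hM : f =ᶠ[𝓝[≠] s₀] fun s => ∏ᶠ ψ ∈ Irr Γ, A.L ψ s ^ v ψ)
    {k l : ℕ} (H : Fin l → Subgroup Γ) (lam : ∀ i, H i →* ℂˣ) (w : Fin l → (Γ → ℂ) → ℕ)
    (hw : ∀ i, ∀ ψ ∈ Irr Γ, ∑ᶠ x : H i, ψ x * (((lam i x)⁻¹ : ℂˣ) : ℂ) =
        (w i ψ : ℂ) * (Nat.card (H i) : ℂ))
    (hkv : ∀ ψ ∈ Irr Γ, k * v ψ = ∑ i, w i ψ) :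
    (fun s => f s ^ k) =ᶠ[𝓝[≠] s₀] fun s => ∏ i, A.Lin (H i) (lam i) s := by
  classical
  have h1 : ∀ᶠ s in 𝓝[≠] s₀, ∀ i, A.Lin (H i) (lam i) s = ∏ᶠ ψ ∈ Irr Γ, A.L ψ s ^ w i ψ := by
    rw [eventually_all]
    intro i
    exact A.induce (H i) (lam i) (w i) (hw i)
  filter_upwards [hM, h1] with s hs1 hs2
  rw [hs1, Finset.prod_congr rfl (fun i _ => hs2 i)]
  have h2 : ∀ u : (Γ → ℂ) → ℕ, ∏ᶠ ψ ∈ Irr Γ, A.L ψ s ^ u ψ = ∏ ψ ∈ irrF Γ, A.L ψ s ^ u ψ := by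
    intro u
    rw [finprod_mem_eq_finite_toFinset_prod _ (irr_finite (G := Γ))]
    rfl
  rw [h2, Finset.prod_congr rfl (fun i _ => h2 (w i)), Finset.prod_comm, ← Finset.prod_pow]
  refine Finset.prod_congr rfl fun ψ hψ => ?_
  rw [← pow_mul, Finset.prod_pow_eq_pow_sum, ← hkv ψ (mem_irrF.mp hψ), mul_comm]

end TwistData

/-- **Main theorem, solvable version.** -/
theorem smain (N : ℕ) (ε : ℝ) (hε : 0 < ε) : ∃ m₀ : ℕ, 0 < m₀ ∧
    (∀ (G : Type) [Group G] [Finite G], Nat.card G ≤ N →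
      ∃ ι : G →* Perm (Fin m₀), ∀ g : G, g ≠ 1 → ∀ x, ι g x ≠ x) ∧
    ∀ m : ℕ, 0 < m → m₀ ∣ m → ∀ (Γ : Type) [Group Γ] [Finite Γ] (j : Perm (Fin m) →* Γ)
      (G : Type) [Group G] [Finite G], Nat.card G ≤ N → ∀ ι : G →* Perm (Fin m),
      (∀ g : G, g ≠ 1 → ∀ x, ι g x ≠ x) →
      (∀ χ ∈ Irr G, ∃ (k l : ℕ) (H : Fin l → Subgroup Γ) (lam : ∀ i, H i →* ℂˣ), 0 < k ∧
        (∀ i, Group.IsSolvable (H i)) ∧
        (∀ σ, (k : ℂ) * ind (j.comp ι) χ σ =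
          ∑ i, ind (H i).subtype (fun h => ((lam i h : ℂˣ) : ℂ)) σ) ∧
        ∀ (s₀ : ℂ) (A : TwistData Γ s₀) (M : (G → ℂ) → ℂ → ℂ), InducedT (j.comp ι) A M →
          (fun s => M χ s ^ k) =ᶠ[𝓝[≠] s₀] fun s => ∏ i, A.Lin (H i) (lam i) s) ∧
      (∀ (s₀ : ℂ) (A : TwistData Γ s₀) (M : (G → ℂ) → ℂ → ℂ), InducedT (j.comp ι) A M →
        ∃ a : (G → ℂ) → ℤ, (∀ χ ∈ Irr G, meromorphicOrderAt (M χ) s₀ = a χ) ∧
          ∀ χ ∈ Irr G, ∑ᶠ g : G, theta A.ord (j (ι g)) * χ g⁻¹ = (a χ : ℂ) * Nat.card G) ∧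
      ∀ θ : Γ → ℂ, IsSolHeilbronn θ → ∀ a : (G → ℂ) → ℤ,
        (∀ χ ∈ Irr G, ∑ᶠ g : G, θ (j (ι g)) * χ g⁻¹ = (a χ : ℂ) * Nat.card G) →
        (∀ χ ∈ Irr G, 0 ≤ a χ) ∧
          ∀ χ ∈ Irr G, χ ≠ (fun _ => 1) → ∀ χ' ∈ Irr G,
            a χ * (χ' 1).re ≤ (1 + ε) * (a χ' * (χ 1).re) := by
  classical
  obtain ⟨m₀, hm₀, hm⟩ := sfree_mult N ε hε
  refine ⟨m₀ * N.factorial, Nat.mul_pos hm₀ N.factorial_pos, ?_, ?_⟩
  · intro G _ _ hG
    obtain ⟨e, he⟩ := exists_freeHom G (m := m₀ * N.factorial)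
      ((Nat.dvd_factorial Nat.card_pos hG).trans (Nat.dvd_mul_left _ _))
    exact ⟨e, he⟩
  intro m hmpos hdvd' Γ _ _ j G _ _ hG ι hι
  have hdvd : m₀ ∣ m := (Nat.dvd_mul_right _ _).trans hdvd'
  have : Fintype G := Fintype.ofFinite G
  have hG' : Fintype.card G ≤ N := by rwa [← Nat.card_eq_fintype_card]
  choose! v hv using fun (χ : G → ℂ) (hχ : χ ∈ Irr G) (ψ : Γ → ℂ)
    (hψ : ψ ∈ Irr Γ) => exists_mult_hom hψ (j.comp ι) hχ
  have hpair : ∀ n : (Γ → ℂ) → ℤ, ∀ χ ∈ Irr G,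
      ∑ g : G, theta n (j (ι g)) * χ g⁻¹ =
        ((∑ ψ ∈ irrF Γ, (v χ ψ : ℤ) * n ψ : ℤ) : ℂ) * Fintype.card G := by
    intro n χ hχ
    have := theta_pair_hom n (j.comp ι) χ (v χ) (hv χ hχ)
    rw [Nat.card_eq_fintype_card] at this
    exact this
  refine ⟨?_, ?_, ?_⟩
  · intro χ hχ
    obtain ⟨k, l, H, lam, w, hk, hsol, hw, hkv⟩ := cone_of_sol (Γ := Γ) (v χ) (by
      intro n hn
      exact (hm m hmpos hdvd (fun σ => theta n (j σ)) (hn.comp j) G hG' ι hι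
        (fun χ => ∑ ψ ∈ irrF Γ, (v χ ψ : ℤ) * n ψ) (hpair n)).1 χ hχ)
    refine ⟨k, l, H, lam, hk, hsol,
      ind_identity (j.comp ι) χ (v χ) (hv χ hχ) H lam w hw hkv, ?_⟩
    intro s₀ A M hM
    exact A.L_identity (v χ) (hM χ hχ (v χ) (hv χ hχ)) H lam w hw hkv
  · intro s₀ A M hM
    refine ⟨fun χ => ∑ ψ ∈ irrF Γ, (v χ ψ : ℤ) * A.ord ψ, ?_, ?_⟩
    · intro χ hχ
      exact A.order_prod (v χ) (hM χ hχ (v χ) (hv χ hχ))
    · intro χ hχ
      rw [finsum_eq_sum_of_fintype, hpair A.ord χ hχ, Nat.card_eq_fintype_card]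
  · intro θ hθ a ha
    exact hm m hmpos hdvd (fun σ => θ (j σ)) (hθ.comp j) G hG' ι hι a (by
      intro χ hχ
      have h1 := ha χ hχ
      rw [finsum_eq_sum_of_fintype, Nat.card_eq_fintype_card] at h1
      exact h1)

/-- value at one of a class function from the multiplicities -/
lemma expand_one {G : Type} [Group G] [Finite G] {f : G → ℂ} (hf : ∀ g h, f (h * g * h⁻¹) = f g)
    (a : (G → ℂ) → ℤ) (ha : ∀ χ ∈ Irr G, ∑ᶠ g : G, f g * χ g⁻¹ = (a χ : ℂ) * Nat.card G) :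
    f 1 = ∑ χ ∈ irrF G, (a χ : ℂ) * χ 1 := by
  classical
  have : Fintype G := Fintype.ofFinite G
  have hz : (fun g => f g - theta a g) = 0 := by
    apply Pool.Agent.Helper884.IC.class_eq_zero
    · intro g h
      simp only
      rw [hf]
      congr 1
      unfold theta
      exact Finset.sum_congr rfl fun χ hχ => by rw [Irr.conj (mem_irrF.mp hχ)]
    · rintro ψ ⟨V, _, _, _, ρ, hρ, hψρ⟩
      have hψ : ψ ∈ Irr G := by
        rw [hψρ]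
        exact irr_of_irred ((irred_iff ρ).mpr hρ)
      unfold Pool.Agent.Helper884.IC.B
      have h1 := ha ψ hψ
      rw [finsum_eq_sum_of_fintype] at h1
      simp_rw [sub_mul]
      rw [Finset.sum_sub_distrib, theta_pair a hψ, h1, sub_self, mul_zero]
  have h1 := congrFun hz 1
  simp only [Pi.zero_apply] at h1
  rw [sub_eq_zero.mp h1]
  rfl

/-- characters of representations are Heilbronn functions -/
lemma heilbronn_char {Γ : Type} [Group Γ] [Finite Γ] {V : Type} [AddCommGroup V] [Module ℂ V]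
    [FiniteDimensional ℂ V] (ρ : Representation ℂ Γ V) : IsHeilbronn ρ.character where
  conj g h := ρ.char_conj g h
  mult H ψ := by
    classical
    have : Fintype H := Fintype.ofFinite H
    have hH : (Nat.card H : ℂ) ≠ 0 := by exact_mod_cast Nat.card_pos.ne'
    have : Invertible (Nat.card H : ℂ) := invertibleOfNonzero hH
    let σ : Representation ℂ H V := ρ.comp H.subtype
    have h := Representation.card_inv_mul_sum_char_mul_char_eq_finrank (linRep ψ) σ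
    refine ⟨Module.finrank ℂ (Representation.IntertwiningMap (linRep ψ) σ), ?_⟩
    rw [← h, finsum_eq_sum_of_fintype]
    have h2 : ∀ x : H, σ.character x * (linRep ψ).character x⁻¹
        = ρ.character (x : Γ) * (((ψ x)⁻¹ : ℂˣ) : ℂ) := by
      intro x
      rw [linRep_char, map_inv]
      rfl
    rw [Finset.sum_congr rfl (fun x _ => h2 x)]
    field_simp

/-- multiplicities of irreducible characters in a representation -/
lemma exists_mult_rep {Γ : Type} [Group Γ] {V : Type} [AddCommGroup V] [Module ℂ V]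
    [FiniteDimensional ℂ V] (ρ : Representation ℂ Γ V) {G : Type} [Group G] [Finite G] (ι : G →* Γ)
    {χ : G → ℂ} (hχ : χ ∈ Irr G) :
    ∃ m : ℕ, ∑ᶠ g : G, ρ.character (ι g) * χ g⁻¹ = (m : ℂ) * (Nat.card G : ℂ) := by
  classical
  have : Fintype G := Fintype.ofFinite G
  obtain ⟨n', σ, hσ, rfl⟩ := hχ
  have hG : (Nat.card G : ℂ) ≠ 0 := by exact_mod_cast Nat.card_pos.ne'
  have : Invertible (Nat.card G : ℂ) := invertibleOfNonzero hG
  let τ : Representation ℂ G V := ρ.comp ι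
  have h := Representation.card_inv_mul_sum_char_mul_char_eq_finrank σ τ
  refine ⟨Module.finrank ℂ (Representation.IntertwiningMap σ τ), ?_⟩
  rw [← h, finsum_eq_sum_of_fintype]
  have h2 : ∀ x : G, τ.character x * σ.character x⁻¹ = ρ.character (ι x) * σ.character x⁻¹ :=
    fun x => rfl
  rw [Finset.sum_congr rfl (fun x _ => h2 x)]
  field_simp

end Pool.Agent.Y786.FS
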