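import Pool.Agent.Y786.FS.Lower
import Pool.Agent.Y786.FR.Pair

set_option autoImplicit false

/-!
# Multiplicities of the restriction to a free subgroup, solvable subgroups only
-/

namespace Pool.Agent.Y786.FS

open Pool.Agent.H302R2 Pool.Agent.H302R3 Pool.Agent.H541R3.ART Pool.Agent.W446.AS Pool.Agent.Y786.FR
  Equiv

/-- **Restrictions of Heilbronn functions to free subgroups.** -/
theorem sfree_mult (N : ℕ) (ε : ℝ) (hε : 0 < ε) : ∃ m₀ : ℕ, 0 < m₀ ∧ ∀ m : ℕ, 0 < m → m₀ ∣ m →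
    ∀ θ : Perm (Fin m) → ℂ, IsSolHeilbronn θ → ∀ (G : Type) [Group G] [Fintype G],
      Fintype.card G ≤ N → ∀ ι : G →* Perm (Fin m), FreeHom ι → ∀ a : (G → ℂ) → ℤ,
      (∀ χ ∈ Irr G, ∑ g : G, θ (ι g) * χ g⁻¹ = (a χ : ℂ) * Fintype.card G) →
      (∀ χ ∈ Irr G, 0 ≤ a χ) ∧ ∀ χ ∈ Irr G, χ ≠ (fun _ => 1) → ∀ χ' ∈ Irr G,
        a χ * (χ' 1).re ≤ (1 + ε) * (a χ' * (χ 1).re) := by
  classical
  set ε' : ℝ := min ε 1 with hε'
  have he0 : 0 < ε' := lt_min hε one_pos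
  have he1 : ε' ≤ 1 := min_le_right _ _
  have hee : ε' ≤ ε := min_le_left _ _
  set η : ℝ := ε' / (9 * (N + 1)) with hη
  have hN0 : (0 : ℝ) ≤ N := Nat.cast_nonneg N
  have hη0 : 0 < η := by positivity
  have hμ : 3 * N * η ≤ ε' / 3 := by
    rw [hη]
    rw [show 3 * (N : ℝ) * (ε' / (9 * (N + 1))) = (ε' / 3) * (N / (N + 1)) by field_simp; ring]
    have h1 : (N : ℝ) / (N + 1) ≤ 1 := by
      rw [div_le_one (by positivity)]; linarith
    have h2 : 0 ≤ ε' / 3 := by positivity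
    nlinarith
  have hη1 : η ≤ 1 / 2 := by
    rw [hη, div_le_iff₀ (by positivity)]
    nlinarith
  obtain ⟨m₀, hm₀, hm⟩ := scompare N η hη0
  refine ⟨m₀, hm₀, fun m hmpos hdvd θ hθ G _ _ hG ι hι a ha => ?_⟩
  obtain ⟨δ, hδ0, hδ1, hδn⟩ := hm m hmpos hdvd θ hθ
  have hval : ∀ g : G, θ (ι g) = (fv θ (orderOf g) : ℂ) := by
    intro g
    rw [sfv_eq hθ (hι.freeP g), hι.orderOf hmpos g]
  have hest : ∀ χ ∈ Irr G, (1 - 3 * N * η) * (δ * (χ 1).re) ≤ a χ * Fintype.card G ∧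
      (χ ≠ (fun _ => 1) → a χ * Fintype.card G ≤ (1 + 3 * N * η) * (δ * (χ 1).re)) := by
    intro χ hχ
    refine mult_est (fv θ) δ η N hG hδ0 hη0.le hη1 hδ1 hδn hχ (a χ) ?_
    rw [← ha χ hχ]
    exact Finset.sum_congr rfl fun g _ => by rw [hval]
  have hcard : (0 : ℝ) < Fintype.card G := by exact_mod_cast Fintype.card_pos
  have hre : ∀ χ ∈ Irr G, 0 < (χ 1).re := by
    intro χ hχ
    obtain ⟨d, hd, hd1⟩ := irr_deg hχ
    rw [hd1, Complex.natCast_re]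
    exact_mod_cast hd
  refine ⟨?_, ?_⟩
  · intro χ hχ
    have h1 := (hest χ hχ).1
    have h2 : 0 ≤ (1 - 3 * N * η) * (δ * (χ 1).re) :=
      mul_nonneg (by linarith) (mul_nonneg hδ0 (hre χ hχ).le)
    have h3 : (0 : ℝ) ≤ a χ := by
      by_contra h
      push Not at h
      have := mul_neg_of_neg_of_pos h hcard
      linarith
    exact_mod_cast h3
  · intro χ hχ hne χ' hχ'
    have h1 := (hest χ hχ).2 hne
    have h2 := (hest χ' hχ').1
    have hD := hre χ hχ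
    have hD' := hre χ' hχ'
    have h3 : a χ * Fintype.card G * (χ' 1).re ≤ (1 + 3 * N * η) * (δ * (χ 1).re) * (χ' 1).re :=
      mul_le_mul_of_nonneg_right h1 hD'.le
    have h4 : (1 + ε) * ((1 - 3 * N * η) * (δ * (χ' 1).re) * (χ 1).re) ≤
        (1 + ε) * (a χ' * Fintype.card G * (χ 1).re) :=
      mul_le_mul_of_nonneg_left (mul_le_mul_of_nonneg_right h2 hD.le) (by linarith)
    have h5 : 1 + 3 * N * η ≤ (1 + ε) * (1 - 3 * N * η) := by
      have h6 : 0 ≤ 3 * N * η := by positivity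
      have h7 : (1 + ε') * (1 - 3 * N * η) ≤ (1 + ε) * (1 - 3 * N * η) :=
        mul_le_mul_of_nonneg_right (by linarith) (by linarith)
      nlinarith
    have h6 : 0 ≤ δ * (χ 1).re * (χ' 1).re := by positivity
    have h7 : (1 + 3 * N * η) * (δ * (χ 1).re * (χ' 1).re) ≤
        (1 + ε) * (1 - 3 * N * η) * (δ * (χ 1).re * (χ' 1).re) := mul_le_mul_of_nonneg_right h5 h6
    have h8 : (a χ * (χ' 1).re) * Fintype.card G ≤
        ((1 + ε) * (a χ' * (χ 1).re)) * Fintype.card G := by nlinarith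
    exact le_of_mul_le_mul_right h8 hcard

end Pool.Agent.Y786.FS
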