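import Pool.Agent.Y786.FS.Main
import Pool.Agent.Y786.FR.Zeta

set_option autoImplicit false

/-!
# L-functions over the fixed fields of free subgroups, quotients
-/

namespace Pool.Agent.Y786.FS

open Pool.Agent.H302R2 Pool.Agent.H302R3 Pool.Agent.H541R3.ART Pool.Agent.W446.AS Pool.Agent.Y786.FR
  Equiv Filter Topology

/-- the order of the L-function over the fixed field of a subgroup is the average of `θ` -/
lemma order_twist {Γ : Type} [Group Γ] [Finite Γ] {s₀ : ℂ} (A : TwistData Γ s₀) (H : Subgroup Γ) :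
    ∃ a : ℤ, meromorphicOrderAt (A.Lin H 1) s₀ = a ∧
      ∑ᶠ h : H, theta A.ord (h : Γ) = (a : ℂ) * (Nat.card H : ℂ) := by
  classical
  choose! m hm using fun χ (hχ : χ ∈ Irr Γ) => exists_mult hχ H 1
  have h1 := A.order_prod m (A.induce H 1 m hm)
  have h2 := theta_mult A.ord H 1 m hm
  refine ⟨_, h1, ?_⟩
  have h5 : ∀ h : H, theta A.ord (h : Γ) * ((((1 : H →* ℂˣ) h)⁻¹ : ℂˣ) : ℂ) =
      theta A.ord (h : Γ) := by
    intro h
    simp
  rw [finsum_congr h5] at h2
  rw [h2]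

lemma twist_avg {m : ℕ} {Γ : Type} [Group Γ] [Finite Γ] {s₀ : ℂ} (A : TwistData Γ s₀)
    (j : Perm (Fin m) →* Γ) (hj : Function.Injective j) (H : Subgroup (Perm (Fin m))) :
    ∃ a : ℤ, meromorphicOrderAt (A.Lin (H.map j) 1) s₀ = a ∧
      ∑ᶠ h : H, theta A.ord (j (h : Perm (Fin m))) = (a : ℂ) * (Nat.card H : ℂ) := by
  obtain ⟨a, h1, h2⟩ := order_twist A (H.map j)
  refine ⟨a, h1, ?_⟩
  have h3 : Nat.card (H.map j) = Nat.card H :=
    (Nat.card_congr (H.equivMapOfInjective j hj).toEquiv).symm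
  rw [h3] at h2
  rw [← h2]
  exact finsum_comp_equiv (H.equivMapOfInjective j hj).toEquiv
    (f := fun y : H.map j => theta A.ord (y : Γ))

/-- the estimate for one subgroup -/
lemma savg_est {m : ℕ} (hm : 0 < m) {θ : Perm (Fin m) → ℂ} (hθ : IsSolHeilbronn θ) {N : ℕ} {η δ : ℝ}
    (hη0 : 0 ≤ η) (hη : η ≤ 1 / 2) (hδ : 0 ≤ δ)
    (hF : ∀ n : ℕ, 2 ≤ n → n ≤ N →
      (1 - η) * δ ≤ fv θ 1 - fv θ n ∧ (1 - η) * (fv θ 1 - fv θ n) ≤ δ)
    {H : Subgroup (Perm (Fin m))} (hH : FreeSub H) (hN : Nat.card H ≤ N) {a : ℤ}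
    (ha : ∑ᶠ h : H, θ (h : Perm (Fin m)) = (a : ℂ) * (Nat.card H : ℂ)) :
    |(a : ℝ) - (fv θ 1 - (1 - 1 / (Nat.card H : ℝ)) * δ)| ≤ 2 * η * δ := by
  classical
  have : Fintype H := Fintype.ofFinite H
  have hfree := hH.hom
  have hc0 : (0 : ℝ) < Nat.card H := by exact_mod_cast Nat.card_pos
  have hord : ∀ g : H, g ≠ 1 → 2 ≤ orderOf g ∧ orderOf g ≤ N := by
    intro g hg
    have h2 := orderOf_pos g
    have h3 : orderOf g ≠ 1 := fun h => hg (orderOf_eq_one_iff.mp h)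
    refine ⟨by omega, ?_⟩
    have h4 := orderOf_le_card_univ (x := g)
    rw [← Nat.card_eq_fintype_card] at h4
    exact h4.trans hN
  have hκ : ∀ g : H, g ≠ 1 → |fv θ (orderOf g) - fv θ 1 + δ| ≤ 2 * η * δ := by
    intro g hg
    obtain ⟨h2, h3⟩ := hF _ (hord g hg).1 (hord g hg).2
    rw [abs_le]
    constructor
    · have h4 : 0 ≤ fv θ 1 - fv θ (orderOf g) := le_trans (mul_nonneg (by linarith) hδ) h2
      have h5 : fv θ 1 - fv θ (orderOf g) ≤ (1 + 2 * η) * δ := by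
        have h6 : (1 + 2 * η) * ((1 - η) * (fv θ 1 - fv θ (orderOf g))) ≤ (1 + 2 * η) * δ :=
          mul_le_mul_of_nonneg_left h3 (by linarith)
        have h7 : fv θ 1 - fv θ (orderOf g) ≤
            (1 + 2 * η) * ((1 - η) * (fv θ 1 - fv θ (orderOf g))) := by
          have h8 : 1 ≤ (1 + 2 * η) * (1 - η) := by nlinarith
          calc fv θ 1 - fv θ (orderOf g) = 1 * (fv θ 1 - fv θ (orderOf g)) := by ring
            _ ≤ ((1 + 2 * η) * (1 - η)) * (fv θ 1 - fv θ (orderOf g)) :=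
              mul_le_mul_of_nonneg_right h8 h4
            _ = _ := by ring
        linarith
      linarith
    · have : 0 ≤ η * δ := mul_nonneg hη0 hδ
      linarith
  have hsum : ∑ g : H, fv θ (orderOf g) = (a : ℝ) * Nat.card H := by
    have h3 : ((∑ g : H, fv θ (orderOf g) : ℝ) : ℂ) = (((a : ℝ) * Nat.card H : ℝ) : ℂ) := by
      push_cast
      rw [← ha, finsum_eq_sum_of_fintype]
      refine Finset.sum_congr rfl fun g _ => ?_
      have h4 := sfv_eq hθ (hfree.freeP g)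
      have h5 : orderOf (H.subtype g) = orderOf g := hfree.orderOf hm g
      rw [h5] at h4
      exact h4.symm
    exact_mod_cast h3
  have hcard : (Fintype.card H : ℝ) = Nat.card H := by rw [Nat.card_eq_fintype_card]
  have hdiff : (a : ℝ) * Nat.card H - (Nat.card H * (fv θ 1 - δ) + δ) =
      ∑ g ∈ Finset.univ.erase (1 : H), (fv θ (orderOf g) - fv θ 1 + δ) := by
    rw [← hsum, ← Finset.add_sum_erase _ _ (Finset.mem_univ (1 : H)), orderOf_one]
    have h6 : ∑ g ∈ Finset.univ.erase (1 : H), (fv θ (orderOf g) - fv θ 1 + δ) =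
        ∑ g ∈ Finset.univ.erase (1 : H), fv θ (orderOf g) -
          (Nat.card H - 1) * (fv θ 1 - δ) := by
      have h7 : ∀ g ∈ Finset.univ.erase (1 : H), fv θ (orderOf g) - fv θ 1 + δ =
          fv θ (orderOf g) - (fv θ 1 - δ) := fun g _ => by ring
      rw [Finset.sum_congr rfl h7, Finset.sum_sub_distrib, Finset.sum_const, nsmul_eq_mul,
        Finset.card_erase_of_mem (Finset.mem_univ _), Finset.card_univ,
        Nat.cast_sub Fintype.card_pos, hcard, Nat.cast_one]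
    rw [h6]
    ring
  have hb : |(a : ℝ) * Nat.card H - (Nat.card H * (fv θ 1 - δ) + δ)| ≤
      Nat.card H * (2 * η * δ) := by
    rw [hdiff]
    refine (Finset.abs_sum_le_sum_abs _ _).trans ?_
    refine (Finset.sum_le_sum (fun g hg => hκ g (Finset.ne_of_mem_erase hg))).trans ?_
    rw [Finset.sum_const, nsmul_eq_mul, ← hcard]
    apply mul_le_mul_of_nonneg_right
    · exact_mod_cast Finset.card_le_univ _
    · positivity
  have h8 : (a : ℝ) * Nat.card H - (Nat.card H * (fv θ 1 - δ) + δ) =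
      Nat.card H * ((a : ℝ) - (fv θ 1 - (1 - 1 / (Nat.card H : ℝ)) * δ)) := by
    field_simp
    ring
  rw [h8, abs_mul, abs_of_pos hc0] at hb
  exact le_of_mul_le_mul_left hb hc0

/-- **L-functions over the fields of free subgroups.** -/
theorem quot_main (N : ℕ) (ε : ℝ) (hε : 0 < ε) : ∃ m₀ : ℕ, 0 < m₀ ∧
    (∀ (G : Type) [Group G] [Finite G], Nat.card G ≤ N →
      ∃ ι : G →* Perm (Fin m₀), Function.Injective ι ∧ FreeSub ι.range) ∧
    ∀ m : ℕ, 0 < m → m₀ ∣ m → ∀ (Γ : Type) [Group Γ] [Finite Γ] (j : Perm (Fin m) →* Γ),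
      Function.Injective j → ∀ (s₀ : ℂ) (A : TwistData Γ s₀),
      ∃ o : Subgroup (Perm (Fin m)) → ℤ,
        (∀ H, meromorphicOrderAt (A.Lin (H.map j) 1) s₀ = o H) ∧
        (∀ H, FreeSub H → Nat.card H ≤ N → 0 ≤ o H ∧ (0 < o ⊥ → 0 < o H)) ∧
        ∀ H H', FreeSub H → FreeSub H' → Nat.card H < Nat.card H' → Nat.card H' ≤ N →
          o H' ≤ o H ∧
          ∀ U U', FreeSub U → FreeSub U' → Nat.card U < Nat.card U' → Nat.card U' ≤ N →
            ((o H : ℝ) - o H') * (1 / (Nat.card U : ℝ) - 1 / (Nat.card U' : ℝ)) ≤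
              (1 + ε) * (((o U : ℝ) - o U') * (1 / (Nat.card H : ℝ) - 1 / (Nat.card H' : ℝ))) := by
  classical
  set ε' : ℝ := min ε 1 with hε'
  have he0 : 0 < ε' := lt_min hε one_pos
  have he1 : ε' ≤ 1 := min_le_right _ _
  have hee : ε' ≤ ε := min_le_left _ _
  set η : ℝ := ε' / (12 * (N + 1) ^ 2) with hη
  have hN0 : (0 : ℝ) ≤ N := Nat.cast_nonneg N
  have hη0 : 0 < η := by positivity
  have hη3 : 12 * (N + 1) ^ 2 * η = ε' := by rw [hη]; field_simp
  have hN1 : (1 : ℝ) ≤ (N + 1) ^ 2 := by nlinarith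
  have hη1 : η ≤ 1 / 12 := by nlinarith
  obtain ⟨m₀, hm₀, hcmp⟩ := scompare N η hη0
  refine ⟨m₀ * N.factorial, Nat.mul_pos hm₀ N.factorial_pos, ?_, ?_⟩
  · intro G _ _ hG
    obtain ⟨e, he⟩ := exists_freeHom G (m := m₀ * N.factorial)
      ((Nat.dvd_factorial Nat.card_pos hG).trans (Nat.dvd_mul_left _ _))
    refine ⟨e, he.inj (Nat.mul_pos hm₀ N.factorial_pos), ?_⟩
    rintro σ ⟨g, rfl⟩ hσ x
    exact he g (fun h => hσ (by rw [h, map_one])) x
  intro m hmpos hdvd' Γ _ _ j hj s₀ A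
  have hdvd : m₀ ∣ m := (Nat.dvd_mul_right _ _).trans hdvd'
  have hθ : IsSolHeilbronn (fun σ : Perm (Fin m) => theta A.ord (j σ)) := A.isSol.comp j
  set θ : Perm (Fin m) → ℂ := fun σ => theta A.ord (j σ) with hθdef
  obtain ⟨δ, hδ0, hδ1, hδn⟩ := hcmp m hmpos hdvd θ hθ
  choose o ho1 ho2 using fun H => twist_avg A j hj H
  have hest : ∀ H, FreeSub H → Nat.card H ≤ N →
      |(o H : ℝ) - (fv θ 1 - (1 - 1 / (Nat.card H : ℝ)) * δ)| ≤ 2 * η * δ := by
    intro H hH hN
    exact savg_est hmpos hθ hη0.le (by linarith) hδ0 hδn hH hN (ho2 H)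
  have hηδ : 0 ≤ η * δ := mul_nonneg hη0.le hδ0
  -- difference of the inverses of the orders
  have hinv : ∀ a b : ℕ, 0 < a → a < b → b ≤ N →
      1 / ((N : ℝ) + 1) ^ 2 ≤ 1 / (a : ℝ) - 1 / (b : ℝ) := by
    intro a b ha hab hbN
    have ha' : (0 : ℝ) < a := by exact_mod_cast ha
    have hb' : (0 : ℝ) < b := by exact_mod_cast ha.trans hab
    have hab' : (a : ℝ) + 1 ≤ b := by exact_mod_cast hab
    have hbN' : (b : ℝ) ≤ N := by exact_mod_cast hbN
    rw [div_sub_div _ _ ha'.ne' hb'.ne', div_le_div_iff₀ (by positivity) (by positivity)]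
    have h1 : (a : ℝ) * b ≤ (N + 1) ^ 2 := by nlinarith
    nlinarith
  have hpair : ∀ H H', FreeSub H → FreeSub H' → Nat.card H < Nat.card H' → Nat.card H' ≤ N →
      |((o H : ℝ) - o H') - (1 / (Nat.card H : ℝ) - 1 / (Nat.card H' : ℝ)) * δ| ≤
        ε' / 3 * ((1 / (Nat.card H : ℝ) - 1 / (Nat.card H' : ℝ)) * δ) := by
    intro H H' hH hH' hlt hle
    have h1 := abs_le.mp (hest H hH (hlt.le.trans hle))
    have h2 := abs_le.mp (hest H' hH' hle)
    have h3 := hinv _ _ Nat.card_pos hlt hle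
    have h4 : 4 * η * δ ≤ ε' / 3 * ((1 / (Nat.card H : ℝ) - 1 / (Nat.card H' : ℝ)) * δ) := by
      have h5 : 4 * η = ε' / 3 * (1 / ((N : ℝ) + 1) ^ 2) := by
        rw [hη]; field_simp; norm_num
      rw [h5]
      have h6 : 0 ≤ ε' / 3 * δ := by positivity
      nlinarith [mul_le_mul_of_nonneg_left h3 h6]
    rw [abs_le]
    constructor
    · linarith [h1.1, h2.2]
    · linarith [h1.2, h2.1]
  refine ⟨o, ho1, ?_, ?_⟩
  · intro H hH hN
    have h1 := abs_le.mp (hest H hH hN)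
    have h3 : 1 / ((N : ℝ) + 1) ≤ 1 / (Nat.card H : ℝ) := by
      apply one_div_le_one_div_of_le
      · exact_mod_cast Nat.card_pos
      · have : (Nat.card H : ℝ) ≤ N := by exact_mod_cast hN
        linarith
    have h6 : 3 * η < 1 / ((N : ℝ) + 1) := by
      rw [lt_div_iff₀ (by positivity)]
      nlinarith
    have h8 : 1 / ((N : ℝ) + 1) * δ ≤ 1 / (Nat.card H : ℝ) * δ :=
      mul_le_mul_of_nonneg_right h3 hδ0
    refine ⟨?_, ?_⟩
    · have h7 : 0 ≤ (1 / ((N : ℝ) + 1) - 3 * η) * δ := mul_nonneg (by linarith) hδ0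
      have h9 : (0 : ℝ) ≤ o H := by linarith [h1.1]
      exact_mod_cast h9
    intro hpos
    have hbot : FreeSub (⊥ : Subgroup (Perm (Fin m))) := by
      intro σ hσ hne
      exact absurd (Subgroup.mem_bot.mp hσ) hne
    have hN' : Nat.card (⊥ : Subgroup (Perm (Fin m))) ≤ N := by
      rw [Subgroup.card_bot]
      exact le_trans Nat.card_pos hN
    have h2 := abs_le.mp (hest ⊥ hbot hN')
    rw [Subgroup.card_bot, Nat.cast_one, div_one, sub_self, zero_mul, sub_zero] at h2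
    have hr : (0 : ℝ) < o ⊥ := by exact_mod_cast hpos
    have h4 : (0 : ℝ) < o H := by
      rcases hδ0.eq_or_lt with h5 | h5
      · rw [← h5] at h1 h2
        simp only [mul_zero, sub_zero, neg_zero] at h1 h2
        linarith [h1.1, h2.2]
      · have h7 : 0 < (1 / ((N : ℝ) + 1) - 3 * η) * δ := mul_pos (by linarith) h5
        linarith [h1.1]
    exact_mod_cast h4
  · intro H H' hH hH' hlt hle
    have h1 := abs_le.mp (hpair H H' hH hH' hlt hle)
    have h3 := hinv _ _ Nat.card_pos hlt hle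
    have hp : (0 : ℝ) < 1 / ((N : ℝ) + 1) ^ 2 := by positivity
    have hD : 0 ≤ (1 / (Nat.card H : ℝ) - 1 / (Nat.card H' : ℝ)) * δ :=
      mul_nonneg (by linarith) hδ0
    refine ⟨?_, ?_⟩
    · have h4 : (o H' : ℝ) ≤ o H := by
        have h5 : ε' / 3 * ((1 / (Nat.card H : ℝ) - 1 / (Nat.card H' : ℝ)) * δ) ≤
            1 * ((1 / (Nat.card H : ℝ) - 1 / (Nat.card H' : ℝ)) * δ) :=
          mul_le_mul_of_nonneg_right (by linarith) hD
        linarith [h1.1]
      exact_mod_cast h4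
    · intro U U' hU hU' hlt2 hle2
      have h2 := abs_le.mp (hpair U U' hU hU' hlt2 hle2)
      have h4 := hinv _ _ Nat.card_pos hlt2 hle2
      set x : ℝ := 1 / (Nat.card H : ℝ) - 1 / (Nat.card H' : ℝ) with hx
      set y : ℝ := 1 / (Nat.card U : ℝ) - 1 / (Nat.card U' : ℝ) with hy
      have hx0 : 0 < x := by linarith
      have hy0 : 0 < y := by linarith
      have h5 : ((o H : ℝ) - o H') * y ≤ (1 + ε' / 3) * (x * δ) * y :=
        mul_le_mul_of_nonneg_right (by linarith [h1.2]) hy0.le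
      have h6 : (1 - ε' / 3) * (y * δ) * x ≤ ((o U : ℝ) - o U') * x :=
        mul_le_mul_of_nonneg_right (by linarith [h2.1]) hx0.le
      have h7 : 0 ≤ x * y * δ := by positivity
      have h8 : (1 + ε') * ((1 - ε' / 3) * (y * δ) * x) ≤ (1 + ε') * (((o U : ℝ) - o U') * x) :=
        mul_le_mul_of_nonneg_left h6 (by linarith)
      have h9 : 0 ≤ ((o U : ℝ) - o U') * x := by
        refine le_trans ?_ h6
        have : 0 ≤ (1 - ε' / 3) := by linarith
        positivity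
      have h10 : (1 + ε') * (((o U : ℝ) - o U') * x) ≤ (1 + ε) * (((o U : ℝ) - o U') * x) :=
        mul_le_mul_of_nonneg_right (by linarith) h9
      have h11 : (1 + ε' / 3) * (x * δ) * y ≤ (1 + ε') * ((1 - ε' / 3) * (y * δ) * x) := by
        have h12 : 1 + ε' / 3 ≤ (1 + ε') * (1 - ε' / 3) := by nlinarith
        calc (1 + ε' / 3) * (x * δ) * y = (1 + ε' / 3) * (x * y * δ) := by ring
          _ ≤ ((1 + ε') * (1 - ε' / 3)) * (x * y * δ) := mul_le_mul_of_nonneg_right h12 h7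
          _ = _ := by ring
      linarith

end Pool.Agent.Y786.FS
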